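import Pool.Agent.Helper28.IV2.Spec

set_option autoImplicit false

/-!
Choice of the sets when the covering condition fails.
-/

namespace Pool.Agent.Helper54.IV2.Z

open Filter Topology Finset
open Pool.Agent.Helper28.IV2

open Classical in
/-- the places not covered by words of length `K` from `S` -/
noncomputable def Ms (S : Set ℕ) (K N : ℕ) : Finset ℕ :=
  (Finset.range N).filter fun n => ∀ s ∈ S, s ≤ n → ¬ n < s + K

lemma card_Ms (S : Set ℕ) (K N : ℕ) : (Ms S K N).card = mis S K N := rfl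

open Classical in
/-- the places counted in `uns` -/
noncomputable def Us (S : Set ℕ) (u v : ℕ → ℕ) (K C N : ℕ) : Finset ℕ :=
  (Finset.range N).filter fun n => ∀ s ∈ S, s ≤ n → n < s + K →
    ∀ j, v j ≤ C * N → ¬ (u j ≤ s ∧ s < v j)

lemma card_Us (S : Set ℕ) (u v : ℕ → ℕ) (K C N : ℕ) :
    (Us S u v K C N).card = uns S u v K C N := rfl

open Classical in
/-- the places of `S` in `[s, t)` -/
noncomputable def Js (S : Set ℕ) (s t : ℕ) : Finset ℕ := (Finset.Ico s t).filter fun i => i ∈ S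

lemma card_Js (S : Set ℕ) (s t : ℕ) : (Js S s t).card = nJ S s t := rfl

open Classical in
lemma mem_Js {S : Set ℕ} {s t i : ℕ} : i ∈ Js S s t ↔ (s ≤ i ∧ i < t) ∧ i ∈ S := by
  unfold Js
  rw [Finset.mem_filter, Finset.mem_Ico]

open Classical in
lemma mem_Ms {S : Set ℕ} {K N n : ℕ} :
    n ∈ Ms S K N ↔ n < N ∧ ∀ s ∈ S, s ≤ n → ¬ n < s + K := by
  unfold Ms
  rw [Finset.mem_filter, Finset.mem_range]

open Classical in
lemma mem_Us {S : Set ℕ} {u v : ℕ → ℕ} {K C N n : ℕ} :
    n ∈ Us S u v K C N ↔ n < N ∧ ∀ s ∈ S, s ≤ n → n < s + K →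
      ∀ j, v j ≤ C * N → ¬ (u j ≤ s ∧ s < v j) := by
  unfold Us
  rw [Finset.mem_filter, Finset.mem_range]

lemma cover (S : Set ℕ) (K N : ℕ) : N ≤ mis S K N + nJ S 0 N * K := by
  have h : Finset.range N ⊆ Ms S K N ∪ (Js S 0 N).biUnion fun s => Finset.Ico s (s + K) := by
    intro n hn
    rw [Finset.mem_range] at hn
    rw [Finset.mem_union]
    by_cases h1 : n ∈ Ms S K N
    · exact Or.inl h1
    · right
      rw [mem_Ms] at h1
      push Not at h1
      obtain ⟨s, hs, h2, h3⟩ := h1 hn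
      rw [Finset.mem_biUnion]
      exact ⟨s, mem_Js.2 ⟨⟨by omega, by omega⟩, hs⟩, Finset.mem_Ico.2 ⟨h2, h3⟩⟩
  have h2 := (Finset.card_le_card h).trans (Finset.card_union_le _ _)
  have h3 : ((Js S 0 N).biUnion fun s => Finset.Ico s (s + K)).card ≤ (Js S 0 N).card * K := by
    refine Finset.card_biUnion_le.trans ?_
    rw [Finset.sum_const_nat (m := K) fun s _ => by rw [Nat.card_Ico]; omega]
  rw [Finset.card_range, card_Ms] at h2
  rw [card_Js] at h3
  omega

lemma nJ_split (S : Set ℕ) (N M : ℕ) : nJ S 0 M ≤ N + nJ S N M := by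
  have h : Js S 0 M ⊆ Finset.range N ∪ Js S N M := by
    intro n hn
    rw [mem_Js] at hn
    rw [Finset.mem_union, Finset.mem_range, mem_Js]
    by_cases h1 : n < N
    · exact Or.inl h1
    · exact Or.inr ⟨⟨by omega, hn.1.2⟩, hn.2⟩
  have h2 := (Finset.card_le_card h).trans (Finset.card_union_le _ _)
  rw [Finset.card_range, card_Js, card_Js] at h2
  exact h2

lemma nJ_mono (S : Set ℕ) {s t s' t' : ℕ} (hs : s' ≤ s) (ht : t ≤ t') :
    nJ S s t ≤ nJ S s' t' := by
  rw [← card_Js, ← card_Js]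
  refine Finset.card_le_card fun n hn => ?_
  rw [mem_Js] at hn ⊢
  exact ⟨⟨by omega, by omega⟩, hn.2⟩

theorem main : S_Z := by
  intro S u v hcov
  unfold Cov at hcov
  push Not at hcov
  obtain ⟨ε, hε, h⟩ := hcov
  by_cases hc : ∃ ε1 : ℝ, 0 < ε1 ∧ ∀ K : ℕ, ∃ᶠ N : ℕ in atTop, ε1 * (N : ℝ) < (mis S K N : ℝ)
  · obtain ⟨ε1, hε1, h1⟩ := hc
    obtain ⟨φ, hφ, h2⟩ := extraction_forall_of_frequently h1
    refine ⟨ε1, φ, fun i => Ms S i (φ i), hε1, hφ, fun i n hn => ?_, fun i => ?_,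
      fun i j => Or.inl ?_⟩
    · exact Finset.mem_range.2 (mem_Ms.1 hn).1
    · rw [card_Ms]
      exact h2 i
    · rintro s hs _ _ n hn ⟨h3, h4⟩
      exact (mem_Ms.1 hn).2 s hs h3 h4
  · push Not at hc
    obtain ⟨K0, hK0⟩ := hc (1 / 2) (by norm_num)
    rw [eventually_atTop] at hK0
    obtain ⟨N1, hN1⟩ := hK0
    -- lower bound for the number of places of `S`
    have hlow : ∀ M : ℕ, N1 ≤ M → M ≤ 2 * (nJ S 0 M * K0) := by
      intro M hM
      have h1 := hN1 M hM
      have h2 : (M : ℝ) ≤ mis S K0 M + ((nJ S 0 M * K0 : ℕ) : ℝ) := by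
        exact_mod_cast cover S K0 M
      have h3 : (M : ℝ) ≤ 2 * ((nJ S 0 M * K0 : ℕ) : ℝ) := by linarith
      exact_mod_cast h3
    have hK0pos : 0 < K0 := by
      rcases Nat.eq_zero_or_pos K0 with h0 | h0
      · exfalso
        have := hlow (N1 + 1) (by omega)
        rw [h0] at this
        omega
      · exact h0
    have hfr : ∀ i : ℕ, ∃ᶠ N : ℕ in atTop,
        ε * (N : ℝ) < (uns S u v i (2 * K0 * (i + 1)) N : ℝ) ∧ N1 ≤ N := by
      intro i
      exact (h i (2 * K0 * (i + 1))).and_eventually (eventually_ge_atTop N1)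
    obtain ⟨φ, hφ, h2⟩ := extraction_forall_of_frequently hfr
    refine ⟨ε, φ, fun i => Us S u v i (2 * K0 * (i + 1)) (φ i), hε, hφ, fun i n hn => ?_,
      fun i => ?_, fun i j => ?_⟩
    · exact Finset.mem_range.2 (mem_Us.1 hn).1
    · rw [card_Us]
      exact (h2 i).1
    · by_cases hj : ∀ s ∈ S, u j ≤ s → s < v j → ∀ n ∈ Us S u v i (2 * K0 * (i + 1)) (φ i),
          ¬ (s ≤ n ∧ n < s + i)
      · exact Or.inl hj
      · right
        push Not at hj
        obtain ⟨s, hs, h3, h4, n, hn, h5, h6⟩ := hj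
        rw [mem_Us] at hn
        have h7 : ¬ v j ≤ 2 * K0 * (i + 1) * φ i := fun h8 => hn.2 s hs h5 h6 j h8 ⟨h3, h4⟩
        set M := 2 * K0 * (i + 1) * φ i with hM
        have hMN : φ i ≤ M := by
          rw [hM]
          exact Nat.le_mul_of_pos_left _ (by positivity)
        have h8 := hlow M ((h2 i).2.trans hMN)
        have h9 : (i + 1) * φ i ≤ nJ S 0 M := by
          have h10 : K0 * ((i + 1) * φ i) ≤ K0 * nJ S 0 M := by
            have : 2 * (K0 * ((i + 1) * φ i)) ≤ 2 * (K0 * nJ S 0 M) := by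
              calc 2 * (K0 * ((i + 1) * φ i)) = M := by rw [hM]; ring
                _ ≤ 2 * (nJ S 0 M * K0) := h8
                _ = 2 * (K0 * nJ S 0 M) := by ring
            omega
          exact Nat.le_of_mul_le_mul_left h10 hK0pos
        have h10 := nJ_split S (φ i) M
        have h11 : i * φ i ≤ nJ S (φ i) M := by
          have : (i + 1) * φ i = i * φ i + φ i := by ring
          omega
        exact h11.trans (nJ_mono S (by omega) (by omega))

end Pool.Agent.Helper54.IV2.Z
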